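import Pool.Agent.H78.KP.Stmts
import Pool.Agent.H59.KG.TRP

/-!
# Project KP, module EV4: continuity in time of the covariance matrix, weighted with the square of
the gradient
-/

set_option autoImplicit false

open MeasureTheory Set Filter Topology
open scoped ContDiff

namespace Pool.Agent.H78.KP

open Pool.Agent.H84 Pool.Agent.H84.Sym Pool.Agent.H84.Sym.P2x Pool.Agent.H19.KL
open Pool.Agent.H73.KG

section

variable {E : Type} [NormedAddCommGroup E] [InnerProductSpace ℝ E]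
    [FiniteDimensional ℝ E] [MeasurableSpace E] [BorelSpace E]

/-- finite sums of regular functions -/
theorem EV4_rg_sum (hRGC : RGCStmt E) {κ : Type} (S : Finset κ) (F : κ → ℝ → E → ℝ)
    (hF : ∀ i, RG (F i)) : RG (fun s θ => ∑ i ∈ S, F i s θ) := by
  classical
  induction S using Finset.induction_on with
  | empty => simpa using hRGC.1 0
  | insert a S ha ih =>
    have := hRGC.2.1 _ _ (hF a) ih
    simpa [Finset.sum_insert ha] using this

/-- the generator of a constant -/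
theorem EV4_gen_const {ι : Type} [Fintype ι] (b : OrthonormalBasis ι ℝ E) (U : E → ℝ) (c s : ℝ)
    (θ : E) : gen b U (fun _ _ => c) s θ = 0 := by
  unfold gen
  have hD : ∀ (c : ℝ) (e : E), D e (fun _ : E => c) = fun _ => 0 := by
    intro c e
    funext x
    simp [D]
  simp [hD]

/-- the generator of a finite sum -/
theorem EV4_gen_sum (hRGC : RGCStmt E) {κ : Type} (S : Finset κ) (F : κ → ℝ → E → ℝ)
    (hF : ∀ i, RG (F i)) {ι : Type} [Fintype ι] (b : OrthonormalBasis ι ℝ E) (U : E → ℝ) (s : ℝ)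
    (hs : 0 < s) (θ : E) :
    gen b U (fun s θ => ∑ i ∈ S, F i s θ) s θ = ∑ i ∈ S, gen b U (F i) s θ := by
  classical
  induction S using Finset.induction_on with
  | empty => simpa using EV4_gen_const b U 0 s θ
  | insert a S ha ih =>
    have h1 := (hRGC.2.2.2.2.1 (F a) (fun s θ => ∑ i ∈ S, F i s θ) U (hF a)
      (EV4_rg_sum hRGC S F hF) ι b s θ hs).1
    rw [Finset.sum_insert ha, ← ih, ← h1]
    congr 1
    funext s θ
    rw [Finset.sum_insert ha]

/-- the generator of a square -/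
theorem EV4_gen_sq (hRGC : RGCStmt E) (F : ℝ → E → ℝ) (hF : RG F) {ι : Type} [Fintype ι]
    (b : OrthonormalBasis ι ℝ E) (U : E → ℝ) (s : ℝ) (hs : 0 < s) (θ : E) :
    gen b U (fun s θ => F s θ ^ 2) s θ = 2 * F s θ * gen b U F s θ +
      ∑ k, (D (b k) (F s) θ) ^ 2 := by
  have h := (hRGC.2.2.2.2.1 F F U hF hF ι b s θ hs).2
  have e : (fun s θ => F s θ ^ 2) = fun s θ => F s θ * F s θ := by
    funext s θ
    ring
  rw [e, h]
  have e2 : ∑ k, (D (b k) (F s) θ) ^ 2 = ∑ k, D (b k) (F s) θ * D (b k) (F s) θ :=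
    Finset.sum_congr rfl fun k _ => by ring
  rw [e2]
  ring

omit [FiniteDimensional ℝ E] [MeasurableSpace E] [BorelSpace E] in
theorem EV4_D_sq {f : E → ℝ} {θ : E} (hf : DifferentiableAt ℝ f θ) (e : E) :
    D e (fun θ => f θ ^ 2) θ = 2 * f θ * D e f θ := by
  unfold D
  have h := (hf.hasFDerivAt.pow 2).fderiv
  rw [h]
  simp

omit [FiniteDimensional ℝ E] [MeasurableSpace E] [BorelSpace E] in
theorem EV4_D_sum {κ : Type} {S : Finset κ} {f : κ → E → ℝ} {θ : E}
    (hf : ∀ i ∈ S, DifferentiableAt ℝ (f i) θ) (e : E) :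
    D e (fun θ => ∑ i ∈ S, f i θ) θ = ∑ i ∈ S, D e (f i) θ := by
  unfold D
  rw [fderiv_fun_sum hf]
  simp

theorem EV4_tst_D {u : E → ℝ} (hu : Tst u) (e : E) : Tst (D e u) := by
  refine ⟨?_, ?_⟩
  · exact (hu.1.fderiv_right (m := ∞) (by simp)).clm_apply contDiff_const
  · exact hu.2.fderiv_apply (𝕜 := ℝ) e

theorem EV4_tst_gc {u : E → ℝ} (hu : Tst u) : GC u := by
  obtain ⟨C, hC⟩ := hu.1.continuous.bounded_above_of_compact_support hu.2
  exact ⟨hu.1.continuous, Gr.of_bdd (A := C) fun x => by simpa using hC x⟩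

theorem EV4_gc_grad {u : E → ℝ} (hu : Tst u) : GC (fun x => ‖fderiv ℝ u x‖ ^ 2) := by
  have hc : Continuous (fderiv ℝ u) := hu.1.continuous_fderiv (by simp)
  obtain ⟨C, hC⟩ := hc.bounded_above_of_compact_support (hu.2.fderiv (𝕜 := ℝ))
  refine GC.sq ⟨hc.norm, Gr.of_bdd (A := C) fun x => ?_⟩
  rw [abs_norm]
  exact hC x

theorem EV4_gc_hq {ι : Type} [Fintype ι] (b : OrthonormalBasis ι ℝ E) {u : E → ℝ} (hu : Tst u) :
    GC (hq b u) := by
  unfold hq
  exact GC.sum (s := Finset.univ) (F := fun i x => ∑ j, (D (b j) (D (b i) u) x) ^ 2) fun i =>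
    GC.sum (s := Finset.univ) (F := fun j x => (D (b j) (D (b i) u) x) ^ 2) fun j =>
      GC.sq (EV4_tst_gc (EV4_tst_D (EV4_tst_D hu _) _))

/-- elementary bound of the third moment -/
theorem EV4_num {T t : ℝ} (ht : 0 < t) (ht1 : t ≤ 1) (h : T ^ 2 ≤ 5 / t ^ 3) :
    |T| ≤ 9 / 4 / t ^ 2 := by
  apply abs_le_of_sq_le_sq _ (by positivity)
  refine h.trans ?_
  rw [div_pow, ← pow_mul, div_le_div_iff₀ (by positivity) (by positivity)]
  have : t ^ (2 * 2) ≤ t ^ 3 := pow_le_pow_of_le_one ht.le ht1 (by norm_num)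
  nlinarith [this, pow_pos ht 3]

/-- the pointwise bounds -/
theorem EV4_pt (hPWB : PWBStmt E) (hRGC : RGCStmt E) (hRGP : RGPStmt E)
    (hAAG : AAGStmt E) (hBAS : BASStmt E) (hMQB : MQBStmt E) (hL1W : L1WStmt E)
    {U : E → ℝ} {t : ℝ} (hU : PP U t) (ht : 0 < t) (ht1 : t ≤ 1) {ι : Type} [Fintype ι]
    (b : OrthonormalBasis ι ℝ E) {u : E → ℝ} (hu : Tst u)
    (rq : RG (fun s θ => qd b U s θ))
    (rp : RG (fun s θ => pm U s θ (fun x => ‖fderiv ℝ u x‖ ^ 2)))
    {s : ℝ} (hs : 0 < s) (θ : E) :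
    gen b U (fun s θ => qd b U s θ * pm U s θ (fun x => ‖fderiv ℝ u x‖ ^ 2)) s θ ≤
      18 * (Fintype.card ι) ^ 3 / t ^ 4 *
        (pm U s θ (fun x => ‖fderiv ℝ u x‖ ^ 2) + pm U s θ (hq b u)) := by
  classical
  set n : ℝ := (Fintype.card ι : ℝ) with hn
  have hn0 : 0 ≤ n := Nat.cast_nonneg _
  set g : E → ℝ := fun x => ‖fderiv ℝ u x‖ ^ 2 with hg
  have hgg : GC g := EV4_gc_grad hu
  have hgh : GC (hq b u) := EV4_gc_hq b hu
  obtain ⟨hPP, hpm, h00⟩ := hPWB U t hU
  have hPs : PP (pw U s θ) (t + s) := hPP s θ hs.le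
  have hts : 1 / (t + s) ≤ 1 / t := one_div_le_one_div_of_le ht (by linarith)
  have hts3 : 5 / (t + s) ^ 3 ≤ 5 / t ^ 3 :=
    div_le_div_of_nonneg_left (by norm_num) (by positivity)
      (pow_le_pow_left₀ ht.le (by linarith) 3)
  -- the entries
  set F : ι → ι → ℝ → E → ℝ := fun i j s θ => cm b (pw U s θ) i j - cm b U i j with hF
  have rF : ∀ i j, RG (F i j) := by
    intro i j
    have h := hRGC.2.1 _ _ (hAAG U t hU ι b i j).1 (hRGC.1 (-(cm b U i j)))
    simpa [hF, sub_eq_add_neg] using h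
  have dF : ∀ i j, DifferentiableAt ℝ (F i j s) θ := fun i j =>
    ((hRGC.2.2.2.2.2.1 _ (rF i j) s hs).2.1.differentiable (by norm_num)) θ
  have gF : ∀ i j, gen b U (F i j) s θ = -((cm b (pw U s θ)) ^ 2) i j := by
    intro i j
    have h := (hRGC.2.2.2.2.1 _ _ U (hAAG U t hU ι b i j).1 (hRGC.1 (-(cm b U i j))) ι b s θ hs).1
    have e : F i j = fun s θ => cm b (pw U s θ) i j + -(cm b U i j) := by
      funext s θ
      simp [hF, sub_eq_add_neg]
    rw [e, h, EV4_gen_const, (hAAG U t hU ι b i j).2.1 s θ hs, add_zero]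
  have DF : ∀ i j k, D (b k) (F i j s) θ = t3 (pw U s θ) (b k) (b i) (b j) := by
    intro i j k
    have e : F i j s = fun θ => cm b (pw U s θ) i j - cm b U i j := rfl
    rw [e]
    unfold D
    rw [fderiv_sub_const]
    exact (hAAG U t hU ι b i j).2.2 s θ (b k) hs.le
  -- elementary bounds
  have bA : ∀ i j, |cm b (pw U s θ) i j| ≤ 1 / t := fun i j =>
    ((hMQB _ _ hPs ι b i j i).1).trans hts
  have bS : ∀ i j, |cm b U i j| ≤ 1 / t := fun i j => (hMQB _ _ hU ι b i j i).1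
  have bT : ∀ i j k, (t3 (pw U s θ) (b k) (b i) (b j)) ^ 2 ≤ 5 / t ^ 3 := fun i j k =>
    ((hMQB _ _ hPs ι b i j k).2.1).trans hts3
  have bF : ∀ i j, |F i j s θ| ≤ 2 / t := by
    intro i j
    have h := abs_sub (cm b (pw U s θ) i j) (cm b U i j)
    have e : (2:ℝ) / t = 1 / t + 1 / t := by ring
    rw [e]
    exact h.trans (add_le_add (bA i j) (bS i j))
  have bA2 : ∀ i j, |((cm b (pw U s θ)) ^ 2) i j| ≤ n / t ^ 2 := by
    intro i j
    rw [pow_two, Matrix.mul_apply]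
    refine (Finset.abs_sum_le_sum_abs _ _).trans ?_
    have h : ∀ k ∈ (Finset.univ : Finset ι),
        |cm b (pw U s θ) i k * cm b (pw U s θ) k j| ≤ 1 / t ^ 2 := by
      intro k _
      rw [abs_mul]
      have := mul_le_mul (bA i k) (bA k j) (abs_nonneg _) (by positivity)
      refine this.trans (le_of_eq (by field_simp))
    refine (Finset.sum_le_sum h).trans (le_of_eq ?_)
    rw [Finset.sum_const, Finset.card_univ, nsmul_eq_mul]
    ring
  -- the generator of `q`
  have gq : gen b U (fun s θ => qd b U s θ) s θ ≤ 9 * n ^ 3 / t ^ 3 := by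
    have e : (fun s θ => qd b U s θ) = fun s θ => ∑ i, ∑ j, F i j s θ ^ 2 := rfl
    have rF2 : ∀ i j, RG (fun s θ => F i j s θ ^ 2) := by
      intro i j
      have := hRGC.2.2.1 _ _ (rF i j) (rF i j)
      have e2 : (fun s θ => F i j s θ ^ 2) = fun s θ => F i j s θ * F i j s θ := by
        funext s θ
        ring
      rw [e2]
      exact this
    rw [e, EV4_gen_sum hRGC Finset.univ (fun i s θ => ∑ j, F i j s θ ^ 2)
      (fun i => EV4_rg_sum hRGC Finset.univ (fun j s θ => F i j s θ ^ 2) (rF2 i)) b U s hs θ]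
    have h1 : ∀ i ∈ (Finset.univ : Finset ι),
        gen b U (fun s θ => ∑ j, F i j s θ ^ 2) s θ ≤ 9 * n ^ 2 / t ^ 3 := by
      intro i _
      rw [EV4_gen_sum hRGC Finset.univ (fun j s θ => F i j s θ ^ 2) (rF2 i) b U s hs θ]
      have h2 : ∀ j ∈ (Finset.univ : Finset ι),
          gen b U (fun s θ => F i j s θ ^ 2) s θ ≤ 9 * n / t ^ 3 := by
        intro j _
        rw [EV4_gen_sq hRGC (F i j) (rF i j) b U s hs θ, gF i j]
        have h3 : ∑ k, (D (b k) (F i j s) θ) ^ 2 ≤ n * (5 / t ^ 3) := by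
          have h4 : ∀ k ∈ (Finset.univ : Finset ι), (D (b k) (F i j s) θ) ^ 2 ≤ 5 / t ^ 3 := by
            intro k _
            rw [DF i j k]
            exact bT i j k
          refine (Finset.sum_le_sum h4).trans (le_of_eq ?_)
          rw [Finset.sum_const, Finset.card_univ, nsmul_eq_mul]
        have h5 : 2 * F i j s θ * -((cm b (pw U s θ)) ^ 2) i j ≤ 4 * n / t ^ 3 := by
          have h6 : |F i j s θ * ((cm b (pw U s θ)) ^ 2) i j| ≤ 2 / t * (n / t ^ 2) := by
            rw [abs_mul]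
            exact mul_le_mul (bF i j) (bA2 i j) (abs_nonneg _) (by positivity)
          have h7 := neg_abs_le (F i j s θ * ((cm b (pw U s θ)) ^ 2) i j)
          have e7 : 2 / t * (n / t ^ 2) = 2 * n / t ^ 3 := by field_simp
          rw [e7] at h6
          have e8 : 4 * n / t ^ 3 = 2 * (2 * n / t ^ 3) := by ring
          rw [e8]
          linarith
        have e9 : 9 * n / t ^ 3 = 4 * n / t ^ 3 + n * (5 / t ^ 3) := by ring
        rw [e9]
        exact add_le_add h5 h3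
      refine (Finset.sum_le_sum h2).trans (le_of_eq ?_)
      rw [Finset.sum_const, Finset.card_univ, nsmul_eq_mul]
      ring
    refine (Finset.sum_le_sum h1).trans (le_of_eq ?_)
    rw [Finset.sum_const, Finset.card_univ, nsmul_eq_mul]
    ring
  -- the derivatives of `q`
  have dq : ∀ k, |D (b k) (fun θ => qd b U s θ) θ| ≤ 9 * n ^ 2 / t ^ 3 := by
    intro k
    have e : (fun θ => qd b U s θ) = fun θ => ∑ i, ∑ j, F i j s θ ^ 2 := rfl
    have d1 : ∀ i j, DifferentiableAt ℝ (fun θ => F i j s θ ^ 2) θ := fun i j => (dF i j).pow 2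
    rw [e, EV4_D_sum (f := fun i θ => ∑ j, F i j s θ ^ 2)
      (fun i _ => DifferentiableAt.fun_sum fun j _ => d1 i j) (b k)]
    refine (Finset.abs_sum_le_sum_abs _ _).trans ?_
    have h1 : ∀ i ∈ (Finset.univ : Finset ι), |D (b k) (fun θ => ∑ j, F i j s θ ^ 2) θ| ≤
        9 * n / t ^ 3 := by
      intro i _
      rw [EV4_D_sum (f := fun j θ => F i j s θ ^ 2) (fun j _ => d1 i j) (b k)]
      refine (Finset.abs_sum_le_sum_abs _ _).trans ?_
      have h2 : ∀ j ∈ (Finset.univ : Finset ι), |D (b k) (fun θ => F i j s θ ^ 2) θ| ≤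
          9 / t ^ 3 := by
        intro j _
        rw [EV4_D_sq (dF i j) (b k), DF i j k, abs_mul, abs_mul]
        have h3 : |t3 (pw U s θ) (b k) (b i) (b j)| ≤ 9 / 4 / t ^ 2 :=
          EV4_num ht ht1 (bT i j k)
        have h4 := mul_le_mul (bF i j) h3 (abs_nonneg _) (by positivity)
        have e4 : (2:ℝ) / t * (9 / 4 / t ^ 2) = 9 / 2 / t ^ 3 := by field_simp; ring
        rw [e4] at h4
        have e5 : (9:ℝ) / t ^ 3 = 2 * (9 / 2 / t ^ 3) := by ring
        rw [e5, abs_of_pos (by norm_num : (0:ℝ) < 2), mul_assoc]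
        linarith
      refine (Finset.sum_le_sum h2).trans (le_of_eq ?_)
      rw [Finset.sum_const, Finset.card_univ, nsmul_eq_mul]
      ring
    refine (Finset.sum_le_sum h1).trans (le_of_eq ?_)
    rw [Finset.sum_const, Finset.card_univ, nsmul_eq_mul]
    ring
  -- the means
  have eY : Y1 (pw U s θ) u = pm U s θ g := hpm s θ hs.le g
  have eZ : Z1 b (pw U s θ) u = pm U s θ (hq b u) := hpm s θ hs.le (hq b u)
  have p0 : 0 ≤ pm U s θ g := by
    rw [← eY]
    exact integral_nonneg fun x => by positivity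
  have z0 : 0 ≤ pm U s θ (hq b u) := by
    rw [← eZ]
    refine integral_nonneg fun x => ?_
    exact Finset.sum_nonneg fun i _ => Finset.sum_nonneg fun j _ => sq_nonneg _
  have dp : ∀ k, |D (b k) (fun θ => pm U s θ g) θ| ≤ 1 / t * (pm U s θ g + pm U s θ (hq b u)) := by
    intro k
    have e : D (b k) (fun θ => pm U s θ g) θ = cv (pw U s θ) g (li (b k)) :=
      ((hRGP U t hU g hgg).2.1 s θ (b k) hs.le).2
    rw [e, (hBAS.2.2.2.1 _ _ hPs g (li (b k)) hgg (Pool.Agent.H59.KG.trp_li _)).2.2.1]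
    have h := hL1W _ _ hPs ι b k u hu
    rw [eY, eZ] at h
    exact h.trans (mul_le_mul_of_nonneg_right hts (by linarith))
  have gp0 : gen b U (fun s θ => pm U s θ g) s θ = 0 := (hRGP U t hU g hgg).2.2 ι b s θ hs
  rw [(hRGC.2.2.2.2.1 _ _ U rq rp ι b s θ hs).2, gp0, mul_zero, zero_add]
  have h1 : pm U s θ g * gen b U (fun s θ => qd b U s θ) s θ ≤
      pm U s θ g * (9 * n ^ 3 / t ^ 3) := mul_le_mul_of_nonneg_left gq p0
  have h2 : ∑ k, D (b k) (fun θ => qd b U s θ) θ * D (b k) (fun θ => pm U s θ g) θ ≤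
      9 * n ^ 3 / t ^ 4 * (pm U s θ g + pm U s θ (hq b u)) := by
    have h3 : ∀ k ∈ (Finset.univ : Finset ι), D (b k) (fun θ => qd b U s θ) θ *
        D (b k) (fun θ => pm U s θ g) θ ≤
        9 * n ^ 2 / t ^ 4 * (pm U s θ g + pm U s θ (hq b u)) := by
      intro k _
      have h4 := mul_le_mul (dq k) (dp k) (abs_nonneg _) (by positivity)
      rw [← abs_mul] at h4
      refine (le_abs_self _).trans (h4.trans (le_of_eq ?_))
      field_simp
    refine (Finset.sum_le_sum h3).trans (le_of_eq ?_)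
    rw [Finset.sum_const, Finset.card_univ, nsmul_eq_mul]
    ring
  have h5 : 9 * n ^ 3 / t ^ 3 ≤ 9 * n ^ 3 / t ^ 4 :=
    div_le_div_of_nonneg_left (by positivity) (by positivity)
      (pow_le_pow_of_le_one ht.le ht1 (by norm_num))
  have h6 : pm U s θ g * (9 * n ^ 3 / t ^ 3) ≤
      9 * n ^ 3 / t ^ 4 * (pm U s θ g + pm U s θ (hq b u)) := by
    have h7 := mul_le_mul_of_nonneg_left h5 p0
    have h8 : 0 ≤ 9 * n ^ 3 / t ^ 4 * pm U s θ (hq b u) := mul_nonneg (by positivity) z0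
    linarith
  have e9 : 18 * n ^ 3 / t ^ 4 * (pm U s θ g + pm U s θ (hq b u)) =
      9 * n ^ 3 / t ^ 4 * (pm U s θ g + pm U s θ (hq b u)) +
      9 * n ^ 3 / t ^ 4 * (pm U s θ g + pm U s θ (hq b u)) := by ring
  rw [e9]
  exact add_le_add (h1.trans h6) h2

end

theorem ev4_thm (E : Type) [NormedAddCommGroup E] [InnerProductSpace ℝ E]
    [FiniteDimensional ℝ E] [MeasurableSpace E] [BorelSpace E]
    (hBAS : BASStmt E) (hPWB : PWBStmt E) (hRGC : RGCStmt E) (hRGP : RGPStmt E)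
    (hBAY : BAYStmt E) (hDYN : DYNStmt E) (hAAG : AAGStmt E) (hMQB : MQBStmt E)
    (hL1W : L1WStmt E) : EV4Stmt E := by
  intro U t hU ht1 ι _ b u hu r hr
  classical
  have ht : 0 < t := by
    obtain ⟨⟨C, hC⟩, -⟩ := hU
    exact hC.pos
  set n : ℝ := (Fintype.card ι : ℝ) with hn
  have hn0 : 0 ≤ n := Nat.cast_nonneg _
  set g : E → ℝ := fun x => ‖fderiv ℝ u x‖ ^ 2 with hg
  have hgg : GC g := EV4_gc_grad hu
  have hgh : GC (hq b u) := EV4_gc_hq b hu
  have rq : RG (fun s θ => qd b U s θ) := by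
    have h : ∀ i j, RG (fun s θ => (cm b (pw U s θ) i j - cm b U i j) ^ 2) := by
      intro i j
      have h0 := hRGC.2.1 _ _ (hAAG U t hU ι b i j).1 (hRGC.1 (-(cm b U i j)))
      have h1 := hRGC.2.2.1 _ _ h0 h0
      have e : (fun s θ => (cm b (pw U s θ) i j - cm b U i j) ^ 2) = fun s θ =>
          (cm b (pw U s θ) i j + -(cm b U i j)) * (cm b (pw U s θ) i j + -(cm b U i j)) := by
        funext s θ
        ring
      rw [e]
      exact h1
    exact EV4_rg_sum hRGC Finset.univ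
      (fun i s θ => ∑ j, (cm b (pw U s θ) i j - cm b U i j) ^ 2)
      (fun i => EV4_rg_sum hRGC Finset.univ
        (fun j s θ => (cm b (pw U s θ) i j - cm b U i j) ^ 2) (h i))
  have rp : RG (fun s θ => pm U s θ g) := (hRGP U t hU g hgg).1
  have rh : RG (fun s θ => pm U s θ (hq b u)) := (hRGP U t hU (hq b u) hgh).1
  have rG : RG (fun r θ => qd b U r θ * pm U r θ g) := hRGC.2.2.1 _ _ rq rp
  refine ⟨rG, ?_⟩
  obtain ⟨hder, hcont, h0⟩ := hDYN U t hU _ rG
  set C : ℝ := 18 * n ^ 3 / t ^ 4 * (Y1 U u + Z1 b U u) with hCdef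
  have Y0 : 0 ≤ Y1 U u := integral_nonneg fun x => by positivity
  have Z0 : 0 ≤ Z1 b U u := integral_nonneg fun x =>
    Finset.sum_nonneg fun i _ => Finset.sum_nonneg fun j _ => sq_nonneg _
  have hle : ∀ s : ℝ, 0 < s → EX U s (gen b U (fun r θ => qd b U r θ * pm U r θ g) s) ≤ C := by
    intro s hs
    obtain ⟨-, hadd, hmul, hcst, hmono, -, hmean⟩ := hBAY U t hU s hs.le
    have g1 : GC (gen b U (fun r θ => qd b U r θ * pm U r θ g) s) :=
      Pool.Agent.H59.KG.trp_gen hRGC hRGP hU rG hs b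
    have g2 : GC (fun θ => pm U s θ g) := (hRGC.2.2.2.2.2.1 _ rp s hs).1
    have g3 : GC (fun θ => pm U s θ (hq b u)) := (hRGC.2.2.2.2.2.1 _ rh s hs).1
    have e1 := hmono _ (fun θ => 18 * n ^ 3 / t ^ 4 * (pm U s θ g + pm U s θ (hq b u))) g1
      (GC.mul (GC.const _) (GC.add g2 g3))
      (fun θ => EV4_pt hPWB hRGC hRGP hAAG hBAS hMQB hL1W hU ht ht1 b hu rq rp hs θ)
    rw [hmul, hadd _ _ g2 g3, hmean g hgg, hmean (hq b u) hgh] at e1
    exact e1
  have hdiff : ∀ s : ℝ, 0 < s → HasDerivAt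
      (fun s => EX U s ((fun r θ => qd b U r θ * pm U r θ g) s))
      (EX U s (gen b U (fun r θ => qd b U r θ * pm U r θ g) s)) s := fun s hs => hder ι b s hs
  have hmv := Convex.image_sub_le_mul_sub_of_deriv_le (convex_Icc (0:ℝ) r)
    (f := fun s => EX U s ((fun r θ => qd b U r θ * pm U r θ g) s))
    (hcont.mono fun x hx => hx.1)
    (by
      rw [interior_Icc]
      exact fun s hs => (hdiff s hs.1).differentiableAt.differentiableWithinAt)
    (C := C)
    (by
      rw [interior_Icc]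
      intro s hs
      rw [(hdiff s hs.1).deriv]
      exact hle s hs.1)
    0 (left_mem_Icc.2 hr.le) r (right_mem_Icc.2 hr.le) hr.le
  have hz : EX U 0 ((fun r θ => qd b U r θ * pm U r θ g) 0) = 0 := by
    rw [h0]
    have e : qd b U 0 0 = 0 := by
      unfold qd
      rw [(hPWB U t hU).2.2]
      simp
    simp [e]
  have hfin : EX U r ((fun r θ => qd b U r θ * pm U r θ g) r) ≤ C * r := by
    have h1 : EX U r ((fun r θ => qd b U r θ * pm U r θ g) r) -
      EX U 0 ((fun r θ => qd b U r θ * pm U r θ g) 0) ≤ C * (r - 0) := hmv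
    rw [hz] at h1
    linarith
  refine le_trans hfin ?_
  rw [hCdef]
  have h1 : 0 ≤ n ^ 3 / t ^ 4 * r * (Y1 U u + Z1 b U u) := by positivity
  have e1 : 18 * n ^ 3 / t ^ 4 * (Y1 U u + Z1 b U u) * r =
    18 * (n ^ 3 / t ^ 4 * r * (Y1 U u + Z1 b U u)) := by ring
  have e2 : 20 * n ^ 3 / t ^ 4 * r * (Y1 U u + Z1 b U u) =
    20 * (n ^ 3 / t ^ 4 * r * (Y1 U u + Z1 b U u)) := by ring
  rw [e1, e2]
  linarith

end Pool.Agent.H78.KP
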